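import Mathlib

set_option autoImplicit false

namespace Pool.Agent.Results.MP_496bc7_gt.Main

open Set Topology

/-- A supp-perfect support map on a semigroup. -/
structure Perfect {S X : Type} [Semigroup S] (supp : S → Set X) : Prop where
  mul : ∀ f g, supp (f * g) ⊆ supp f ∪ supp g
  comm : ∀ f g, supp f ∩ supp g = ∅ → f * g = g * f
  cover : ⋃ f, supp f = univ
  fin : ∀ f, (supp f).Finite
  fin' : ∀ F : Set X, F.Finite → {f | supp f ⊆ F}.Finite
  cent : ∀ F : Set X, F.Finite →
    {f | supp f ⊆ F} = {g | ∀ t, supp t ⊆ Fᶜ → g * t = t * g}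

/-- The semi-Zariski topology. -/
def zariski (S : Type) [Semigroup S] : TopologicalSpace S :=
  TopologicalSpace.generateFrom
    ({U | ∃ a b c : WithOne S, U = {s : S | a * s * b ≠ c}} ∪
      {U | ∃ a b c d : WithOne S, U = {s : S | a * s * b ≠ c * s * d}})

abbrev W := ℕ∞ ⊕ (ℕ × ℕ∞ ⊕ Bool)

def R : W → W → Prop
  | .inl i, .inr (.inl c) => c.1 ≤ i ∧ i ≤ c.2
  | .inr (.inl c), .inr (.inl d) => c.1 < d.1 ∧ (d.2 = c.1 ∨ d.2 = c.2)
  | _, _ => False

open Classical in
noncomputable def sg : Semigroup W where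
  mul a b := .inr (.inr (decide (R a b)))
  mul_assoc a b c := by
    change Sum.inr (Sum.inr (decide (R (.inr (.inr _)) c))) =
      Sum.inr (Sum.inr (decide (R a (.inr (.inr _)))))
    rcases a with _ | _ | _ <;> simp [R]

def sp : W → Set ℕ∞
  | .inl i => {p | p ≤ i ∧ (i = ⊤ → p = ⊤)}
  | .inr (.inl c) => {(c.1 : ℕ∞), c.2}
  | .inr (.inr _) => ∅

theorem big {F : Set ℕ∞} (hF : F.Finite) (n : ℕ) : ∃ m : ℕ, n < m ∧ (m : ℕ∞) ∉ F := by
  obtain ⟨m, h1, h2⟩ := (Ioi_infinite n).exists_notMem_finite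
    (hF.preimage Nat.cast_injective.injOn)
  exact ⟨m, h1, h2⟩

theorem perfect : @Perfect W ℕ∞ sg sp := by
  letI := sg
  have e : ∀ a b : W, a * b = b * a ↔ (R a b ↔ R b a) := fun a b => by
    change Sum.inr (Sum.inr _) = Sum.inr (Sum.inr _) ↔ _
    simp
  have c : ∀ f g : W, sp f ∩ sp g = ∅ → ¬ R f g := fun f g h r => by
    refine (nonempty_iff_ne_empty.1 ?_) h
    rcases f with i | c | _ <;> rcases g with j | d | _ <;> try exact r.elim
    · by_cases hi : i = ⊤
      · exact ⟨⊤, ⟨hi.ge, fun _ => rfl⟩, .inr (top_le_iff.1 (hi ▸ r.2)).symm⟩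
      · exact ⟨d.1, ⟨r.1, fun h => absurd h hi⟩, .inl rfl⟩
    · exact ⟨d.2, r.2, .inr rfl⟩
  have c' : ∀ f g : W, sp f ∩ sp g = ∅ → f * g = g * f := fun f g h =>
    (e f g).2 (iff_of_false (c f g h) (c g f (inter_comm _ _ ▸ h)))
  refine ⟨fun f g => empty_subset _, c', eq_univ_of_forall fun x =>
    mem_iUnion.2 ⟨.inr (.inl (0, x)), .inr rfl⟩, fun f => ?_, fun F hF => ?_, fun F hF => ?_⟩
  · rcases f with i | c | _
    · induction i with
      | top => exact (finite_singleton ⊤).subset fun p h => h.2 rfl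
      | coe i =>
        refine ((finite_Iic i).image Nat.cast).subset fun p h => ?_
        lift p to ℕ using (h.1.trans_lt (ENat.coe_lt_top i)).ne
        exact ⟨p, Nat.cast_le.1 h.1, rfl⟩
    · exact (finite_singleton _).insert _
    · exact finite_empty
  · refine ((hF.image Sum.inl).union ((((hF.preimage Nat.cast_injective.injOn).prod hF).image
      (fun c => Sum.inr (Sum.inl c))).union (finite_range fun b => Sum.inr (Sum.inr b)))).subset ?_
    rintro (i | c | b) h
    · exact .inl ⟨i, h ⟨le_rfl, id⟩, rfl⟩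
    · exact .inr (.inl ⟨c, ⟨h (.inl rfl), h (.inr rfl)⟩, rfl⟩)
    · exact .inr (.inr ⟨b, rfl⟩)
  refine Subset.antisymm (fun f h t ht => c' f t (disjoint_iff_inter_eq_empty.1
    (disjoint_compl_right.mono h ht))) fun f h p hp => by_contra fun q => ?_
  rcases f with i | c | _
  · induction i with
    | top =>
      obtain ⟨m, -, m2⟩ := big hF 0
      obtain rfl := hp.2 rfl
      exact ((e _ _).1 (h (.inr (.inl (m, ⊤))) (pair_subset m2 q))).1 ⟨le_top, le_rfl⟩
    | coe i =>
      obtain ⟨m, m1, m2⟩ := big hF i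
      lift p to ℕ using (hp.1.trans_lt (ENat.coe_lt_top i)).ne
      exact ((e _ _).1 (h (.inr (.inl (p, m))) (pair_subset q m2))).1
        ⟨hp.1, Nat.cast_le.2 m1.le⟩
  · obtain ⟨m, m1, m2⟩ := big hF c.1
    exact (((e _ _).1 (h (.inr (.inl (m, p))) (pair_subset m2 q))).1 ⟨m1, hp⟩).1.not_gt m1
  · exact hp

theorem zar {S : Type} [Semigroup S] [t : TopologicalSpace S] [T2Space S] [ContinuousMul S] :
    t ≤ zariski S := by
  have k : ∀ a b : WithOne S, ∃ φ : S → S, Continuous φ ∧ ∀ s : S, a * s * b = φ s := fun a b => by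
    induction a using WithOne.recOneCoe <;> induction b using WithOne.recOneCoe
    · exact ⟨id, continuous_id, by simp⟩
    · exact ⟨_, continuous_mul_const _, fun s => by rw [one_mul, WithOne.coe_mul]⟩
    · exact ⟨_, continuous_const_mul _, fun s => by rw [mul_one, WithOne.coe_mul]⟩
    · exact ⟨_, (continuous_mul_const _).comp (continuous_const_mul _), fun s => by
        rw [Function.comp, WithOne.coe_mul, WithOne.coe_mul]⟩
  refine le_generateFrom ?_
  rintro _ (⟨a, b, c, rfl⟩ | ⟨a, b, c, d, rfl⟩)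
  · obtain ⟨φ, h1, h2⟩ := k a b
    induction c using WithOne.recOneCoe
    · simp [h2]
    · simpa [h2] using isOpen_ne_fun h1 continuous_const
  · obtain ⟨φ, h1, h2⟩ := k a b
    obtain ⟨ψ, h3, h4⟩ := k c d
    simpa [h2, h4] using isOpen_ne_fun h1 h3

theorem result : ∃ (S X : Type) (_ : Semigroup S) (supp : S → Set X) (x : X), Perfect supp ∧
    ¬ IsOpen[zariski S] {f | x ∈ supp f} ∧
    ∃ _ : TopologicalSpace S, T2Space S ∧ ContinuousMul S ∧ ¬ IsOpen {f | x ∈ supp f} := by
  letI := sg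
  letI : TopologicalSpace (ℕ × ℕ∞ ⊕ Bool) := ⊥
  have : DiscreteTopology (ℕ × ℕ∞ ⊕ Bool) := ⟨rfl⟩
  have l : IsOpenEmbedding (Sum.inl : _ → W) := IsOpenEmbedding.inl
  have r : IsOpenEmbedding (Sum.inr : _ → W) := IsOpenEmbedding.inr
  have key : ∀ a b : W, ∀ᶠ p in 𝓝 (a, b), R p.1 p.2 ↔ R a b := by
    rintro (i | x) (j | y)
    · refine (l.prodMap l).map_nhds_eq (i, j) ▸ ?_
      rw [Filter.eventually_map]
      exact Filter.Eventually.of_forall fun _ => Iff.rfl
    · refine (l.prodMap r).map_nhds_eq (i, y) ▸ ?_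
      rw [Filter.eventually_map, nhds_prod_eq, nhds_discrete (ℕ × ℕ∞ ⊕ Bool), Filter.prod_pure,
        Filter.eventually_map]
      rcases y with ⟨k, m⟩ | y
      · by_cases hi : i = ⊤
        · subst hi
          induction m with
          | top =>
            filter_upwards [le_mem_nhds (ENat.coe_lt_top k)] with a h
            simp [R, h]
          | coe m =>
            filter_upwards [lt_mem_nhds (ENat.coe_lt_top m)] with a h
            simp [R, h]
        · simp [ENat.nhds_eq_pure hi]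
      · exact Filter.Eventually.of_forall fun _ => Iff.rfl
    · refine (r.prodMap l).map_nhds_eq (x, j) ▸ ?_
      rw [Filter.eventually_map]
      refine Filter.Eventually.of_forall ?_
      rintro ⟨_ | _, _⟩ <;> rcases x with _ | _ <;> exact Iff.rfl
    · refine (r.prodMap r).map_nhds_eq (x, y) ▸ ?_
      simp [nhds_discrete]
  have h1 : ContinuousMul W := ⟨continuous_iff_continuousAt.2 fun p =>
    tendsto_nhds_of_eventually_eq ((key p.1 p.2).mono fun q h => by
      change Sum.inr (Sum.inr _) = Sum.inr (Sum.inr _)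
      simp [h])⟩
  have h2 : ¬ IsOpen {f : W | ⊤ ∈ sp f} := fun h => by
    obtain ⟨n, hn⟩ := (ENat.tendsto_natCast_nhds_top.eventually
      ((h.preimage continuous_inl).mem_nhds (x := ⊤) ⟨le_rfl, id⟩)).exists
    exact (ENat.coe_lt_top n).not_ge hn.1
  exact ⟨W, ℕ∞, sg, sp, ⊤, perfect, fun h => h2 (zar _ h), _, inferInstance, h1, h2⟩

end Pool.Agent.Results.MP_496bc7_gt.Main
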